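import Pool.Agent.TH311.Os.Defs

/-!
# The annulus `1 ≤ |z| ≤ 2` is a billiard table
-/

set_option autoImplicit false

open Set Filter Topology MeasureTheory
open scoped ContDiff ComplexConjugate

namespace Pool.Agent.TH311.Os

/-- the annulus -/
def Q : Set ℂ := {z | 1 ≤ ‖z‖ ∧ ‖z‖ ≤ 2}

/-- outer circle, counterclockwise -/
noncomputable def go (r : ℝ) : ℂ := 2 * Complex.exp ((r / 2 : ℝ) * Complex.I)

/-- inner circle, clockwise -/
noncomputable def gi (r : ℝ) : ℂ := Complex.exp ((-r : ℝ) * Complex.I)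

/-- the two boundary curves -/
noncomputable def ga : Fin 2 → ℝ → ℂ := ![go, gi]

/-- the two lengths -/
noncomputable def La : Fin 2 → ℝ := ![4 * Real.pi, 2 * Real.pi]

theorem ga0 : ga 0 = go := rfl
theorem ga1 : ga 1 = gi := rfl
theorem La0 : La 0 = 4 * Real.pi := rfl
theorem La1 : La 1 = 2 * Real.pi := rfl

theorem norm_go (r : ℝ) : ‖go r‖ = 2 := by
  unfold go
  rw [norm_mul, Complex.norm_exp_ofReal_mul_I]
  simp

theorem norm_gi (r : ℝ) : ‖gi r‖ = 1 := by
  unfold gi
  rw [Complex.norm_exp_ofReal_mul_I]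

theorem interior_Q : interior Q = {z | 1 < ‖z‖ ∧ ‖z‖ < 2} := by
  have h1 : Q = Metric.closedBall 0 2 ∩ (Metric.ball 0 1)ᶜ := by
    ext z
    simp only [Q, mem_ofPred_eq, mem_inter_iff, mem_closedBall_zero_iff, mem_compl_iff,
      mem_ball_zero_iff, not_lt]
    tauto
  rw [h1, interior_inter, interior_closedBall _ (by norm_num), interior_compl,
    closure_ball _ (by norm_num)]
  ext z
  simp only [mem_ofPred_eq, mem_inter_iff, mem_closedBall_zero_iff, mem_compl_iff,
    mem_ball_zero_iff, not_le]
  tauto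

theorem isClosed_Q : IsClosed Q :=
  (isClosed_le continuous_const continuous_norm).inter
    (isClosed_le continuous_norm continuous_const)

theorem frontier_Q : frontier Q = {z | ‖z‖ = 1 ∨ ‖z‖ = 2} := by
  rw [isClosed_Q.frontier_eq, interior_Q]
  ext z
  simp only [Set.mem_sdiff, mem_ofPred_eq, Q, not_and, not_lt]
  constructor
  · rintro ⟨⟨h1, h2⟩, h3⟩
    rcases h1.eq_or_lt with h | h
    · left; exact h.symm
    · right; exact le_antisymm h2 (h3 h)
  · rintro (h | h)
    · rw [h]; norm_num
    · rw [h]; norm_num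

theorem range_go : range go = {z | ‖z‖ = 2} := by
  ext z
  constructor
  · rintro ⟨r, rfl⟩
    exact norm_go r
  · intro h
    have h' : ‖z‖ = 2 := h
    refine ⟨2 * Complex.arg z, ?_⟩
    unfold go
    rw [show (2 * Complex.arg z / 2 : ℝ) = Complex.arg z by ring]
    have := Complex.norm_mul_exp_arg_mul_I z
    rw [h'] at this
    exact_mod_cast this

theorem range_gi : range gi = {z | ‖z‖ = 1} := by
  ext z
  constructor
  · rintro ⟨r, rfl⟩
    exact norm_gi r
  · intro h
    have h' : ‖z‖ = 1 := h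
    refine ⟨- Complex.arg z, ?_⟩
    unfold gi
    rw [neg_neg]
    have := Complex.norm_mul_exp_arg_mul_I z
    rw [h'] at this
    simpa using this

theorem hasDerivAt_go (r : ℝ) :
    HasDerivAt go (Complex.I * Complex.exp ((r / 2 : ℝ) * Complex.I)) r := by
  unfold go
  have h1 : HasDerivAt (fun r : ℝ => ((r / 2 : ℝ) : ℂ)) (1 / 2) r := by
    have := ((hasDerivAt_id r).div_const 2).ofReal_comp
    simpa using this
  have h2 := ((h1.mul_const Complex.I).cexp).const_mul 2
  refine h2.congr_deriv ?_
  ring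

theorem hasDerivAt_gi (r : ℝ) :
    HasDerivAt gi (-Complex.I * Complex.exp ((-r : ℝ) * Complex.I)) r := by
  unfold gi
  have h1 : HasDerivAt (fun r : ℝ => ((-r : ℝ) : ℂ)) (-1) r := by
    have := ((hasDerivAt_id r).neg).ofReal_comp
    simpa using this
  have h2 := (h1.mul_const Complex.I).cexp
  refine h2.congr_deriv ?_
  ring

theorem deriv_go (r : ℝ) : deriv go r = Complex.I * Complex.exp ((r / 2 : ℝ) * Complex.I) :=
  (hasDerivAt_go r).deriv

theorem deriv_gi (r : ℝ) : deriv gi r = -Complex.I * Complex.exp ((-r : ℝ) * Complex.I) :=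
  (hasDerivAt_gi r).deriv

/-- inward normals -/
theorem normal_go (r : ℝ) :
    Complex.I * deriv go r = - Complex.exp ((r / 2 : ℝ) * Complex.I) := by
  rw [deriv_go, ← mul_assoc, Complex.I_mul_I]
  ring

theorem normal_gi (r : ℝ) :
    Complex.I * deriv gi r = Complex.exp ((-r : ℝ) * Complex.I) := by
  rw [deriv_gi, ← mul_assoc, mul_neg, Complex.I_mul_I]
  ring

theorem contDiff_exp_real (c : ℝ) :
    ContDiff ℝ ∞ fun r : ℝ => Complex.exp ((c * r : ℝ) * Complex.I) := by
  have h1 : ContDiff ℝ ∞ fun r : ℝ => ((c * r : ℝ) : ℂ) :=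
    Complex.ofRealCLM.contDiff.comp (contDiff_const.mul contDiff_id)
  exact Complex.contDiff_exp.comp (h1.mul contDiff_const)

theorem contDiff_go : ContDiff ℝ ∞ go := by
  have h : ContDiff ℝ ∞ fun r : ℝ => (2 : ℂ) * Complex.exp ((1 / 2 * r : ℝ) * Complex.I) :=
    contDiff_const.mul (contDiff_exp_real (1 / 2))
  have e : go = fun r : ℝ => (2 : ℂ) * Complex.exp ((1 / 2 * r : ℝ) * Complex.I) := by
    funext r
    unfold go
    rw [show r / 2 = 1 / 2 * r by ring]
  rw [e]
  exact h

theorem contDiff_gi : ContDiff ℝ ∞ gi := by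
  have e : gi = fun r : ℝ => Complex.exp ((-1 * r : ℝ) * Complex.I) := by
    funext r
    unfold gi
    rw [show -r = -1 * r by ring]
  rw [e]
  exact contDiff_exp_real (-1)

theorem exp_eq_exp_iff {a b : ℝ}
    (h : Complex.exp (a * Complex.I) = Complex.exp (b * Complex.I)) :
    ∃ k : ℤ, a = b + k * (2 * Real.pi) := by
  obtain ⟨n, hn⟩ := Complex.exp_eq_exp_iff_exists_int.1 h
  refine ⟨n, ?_⟩
  have h1 : ((a : ℂ)) * Complex.I = ((b + n * (2 * Real.pi) : ℝ) : ℂ) * Complex.I := by
    rw [hn]
    push_cast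
    ring
  exact_mod_cast mul_right_cancel₀ Complex.I_ne_zero h1

theorem isTable : IsTable Q ga La where
  isCompact := Metric.isCompact_of_isClosed_isBounded isClosed_Q
    ((Metric.isBounded_closedBall (x := (0 : ℂ)) (r := 2)).subset fun x hx => by
      rw [mem_closedBall_zero_iff]
      exact hx.2)
  connected := by
    have h1 : interior Q = (fun p : ℝ × ℝ => (p.1 : ℂ) * Complex.exp (p.2 * Complex.I)) ''
        (Ioo 1 2 ×ˢ univ) := by
      rw [interior_Q]
      ext z
      constructor
      · rintro ⟨h1, h2⟩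
        exact ⟨(‖z‖, Complex.arg z), ⟨⟨h1, h2⟩, mem_univ _⟩, Complex.norm_mul_exp_arg_mul_I z⟩
      · rintro ⟨⟨ρ, θ⟩, ⟨⟨h1, h2⟩, _⟩, rfl⟩
        have h3 : ‖(ρ : ℂ) * Complex.exp (θ * Complex.I)‖ = ρ := by
          rw [norm_mul, Complex.norm_exp_ofReal_mul_I, mul_one, Complex.norm_real,
            Real.norm_eq_abs, abs_of_pos (by linarith [show (1 : ℝ) < ρ from h1])]
        show 1 < ‖(ρ : ℂ) * Complex.exp (θ * Complex.I)‖ ∧ ‖(ρ : ℂ) * Complex.exp (θ * Complex.I)‖ < 2
        rw [h3]
        exact ⟨h1, h2⟩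
    rw [h1]
    refine ((isConnected_Ioo (by norm_num)).prod isConnected_univ).image _ ?_
    exact Continuous.continuousOn (by fun_prop)
  regular := by
    apply Subset.antisymm
    · exact closure_minimal interior_subset isClosed_Q
    · intro z hz
      obtain ⟨h1, h2⟩ := hz
      have hz0 : 0 < ‖z‖ := by linarith
      -- move the norm towards `3 / 2`
      have hc : Tendsto (fun t : ℝ => (((1 - t) + t * (3 / 2 / ‖z‖) : ℝ) : ℂ) * z) (𝓝[>] 0)
          (𝓝 z) := by
        have h3 : Continuous fun t : ℝ => (((1 - t) + t * (3 / 2 / ‖z‖) : ℝ) : ℂ) * z := by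
          fun_prop
        have h4 := h3.tendsto 0
        simp only [sub_zero, zero_mul, add_zero, Complex.ofReal_one, one_mul] at h4
        exact h4.mono_left nhdsWithin_le_nhds
      refine mem_closure_of_tendsto hc ?_
      filter_upwards [Ioo_mem_nhdsGT (show (0 : ℝ) < 1 by norm_num)] with t ht
      rw [interior_Q]
      have h5 : ‖(((1 - t) + t * (3 / 2 / ‖z‖) : ℝ) : ℂ) * z‖ = (1 - t) * ‖z‖ + t * (3 / 2) := by
        rw [norm_mul, Complex.norm_real, Real.norm_eq_abs, abs_of_pos]
        · field_simp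
        · have : 0 < 1 - t := by linarith [ht.2]
          have := ht.1
          positivity
      show 1 < ‖_‖ ∧ ‖_‖ < 2
      rw [h5]
      have := ht.1
      have := ht.2
      constructor <;> nlinarith
  pos := by
    intro i
    have := Real.pi_pos
    fin_cases i
    · show 0 < 4 * Real.pi
      positivity
    · show 0 < 2 * Real.pi
      positivity
  smooth := by
    intro i
    fin_cases i
    · exact contDiff_go
    · exact contDiff_gi
  unit := by
    intro i s
    fin_cases i
    · show ‖deriv go s‖ = 1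
      rw [deriv_go, norm_mul, Complex.norm_exp_ofReal_mul_I]
      simp
    · show ‖deriv gi s‖ = 1
      rw [deriv_gi, norm_mul, Complex.norm_exp_ofReal_mul_I]
      simp
  per := by
    intro i s
    fin_cases i
    · show go (s + 4 * Real.pi) = go s
      unfold go
      congr 1
      have : (((s + 4 * Real.pi) / 2 : ℝ) : ℂ) * Complex.I = ((s / 2 : ℝ) : ℂ) * Complex.I +
        2 * Real.pi * Complex.I := by
        push_cast
        ring
      rw [this, Complex.exp_add, Complex.exp_two_pi_mul_I, mul_one]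
    · show gi (s + 2 * Real.pi) = gi s
      unfold gi
      have : ((-(s + 2 * Real.pi) : ℝ) : ℂ) * Complex.I = ((-s : ℝ) : ℂ) * Complex.I -
        2 * Real.pi * Complex.I := by
        push_cast
        ring
      rw [this, Complex.exp_sub, Complex.exp_two_pi_mul_I, div_one]
  inj := by
    intro i j s t h
    fin_cases i <;> fin_cases j
    · refine ⟨rfl, ?_⟩
      have h' : go s = go t := h
      unfold go at h'
      obtain ⟨k, hk⟩ := exp_eq_exp_iff (mul_left_cancel₀ two_ne_zero h')
      refine ⟨-k, ?_⟩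
      show t = s + ((-k : ℤ) : ℝ) * (4 * Real.pi)
      push_cast
      linarith
    · exfalso
      have h' : go s = gi t := h
      have := congrArg norm h'
      rw [norm_go, norm_gi] at this
      norm_num at this
    · exfalso
      have h' : gi s = go t := h
      have := congrArg norm h'
      rw [norm_go, norm_gi] at this
      norm_num at this
    · refine ⟨rfl, ?_⟩
      have h' : gi s = gi t := h
      unfold gi at h'
      obtain ⟨k, hk⟩ := exp_eq_exp_iff h'
      refine ⟨k, ?_⟩
      show t = s + (k : ℝ) * (2 * Real.pi)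
      linarith
  boundary := by
    rw [frontier_Q]
    ext z
    simp only [mem_ofPred_eq, mem_iUnion, Fin.exists_fin_two, ga0, ga1, range_go, range_gi]
    tauto
  side := by
    intro i s
    fin_cases i
    · show ∀ᶠ t : ℝ in 𝓝[>] 0, go s + t * (Complex.I * deriv go s) ∈ interior Q
      filter_upwards [Ioo_mem_nhdsGT (show (0 : ℝ) < 1 by norm_num)] with t ht
      rw [normal_go, interior_Q]
      have h1 : go s + t * -Complex.exp ((s / 2 : ℝ) * Complex.I) =
          ((2 - t : ℝ) : ℂ) * Complex.exp ((s / 2 : ℝ) * Complex.I) := by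
        unfold go
        push_cast
        ring
      have h2 : ‖((2 - t : ℝ) : ℂ) * Complex.exp ((s / 2 : ℝ) * Complex.I)‖ = 2 - t := by
        rw [norm_mul, Complex.norm_exp_ofReal_mul_I, mul_one, Complex.norm_real,
          Real.norm_eq_abs, abs_of_pos (by linarith [ht.2])]
      show 1 < ‖_‖ ∧ ‖_‖ < 2
      rw [h1, h2]
      constructor <;> linarith [ht.1, ht.2]
    · show ∀ᶠ t : ℝ in 𝓝[>] 0, gi s + t * (Complex.I * deriv gi s) ∈ interior Q
      filter_upwards [Ioo_mem_nhdsGT (show (0 : ℝ) < 1 by norm_num)] with t ht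
      rw [normal_gi, interior_Q]
      have h1 : gi s + t * Complex.exp ((-s : ℝ) * Complex.I) =
          ((1 + t : ℝ) : ℂ) * Complex.exp ((-s : ℝ) * Complex.I) := by
        unfold gi
        push_cast
        ring
      have h2 : ‖((1 + t : ℝ) : ℂ) * Complex.exp ((-s : ℝ) * Complex.I)‖ = 1 + t := by
        rw [norm_mul, Complex.norm_exp_ofReal_mul_I, mul_one, Complex.norm_real,
          Real.norm_eq_abs, abs_of_pos (by linarith [ht.1])]
      show 1 < ‖_‖ ∧ ‖_‖ < 2
      rw [h1, h2]
      constructor <;> linarith [ht.1, ht.2]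

end Pool.Agent.TH311.Os
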