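import Mathlib

/-!
# Billiard tables with smooth boundary: phase space, billiard map, derivative in the coordinates
-/

set_option autoImplicit false

open Set Filter Topology MeasureTheory
open scoped ContDiff ComplexConjugate

namespace Pool.Agent.TH311.Os

/-- `Q` is a billiard table without corners (so without cusps): a compact set, the closure of its
connected interior, whose boundary is the disjoint union of the finitely many simple closed
`C^∞` curves `γ i`, parametrised by arc length with period `L i`, positively oriented: the table lies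
on the left of each of them, so that `I * deriv (γ i) s` is the inward unit normal at `γ i s`. -/
structure IsTable {m : ℕ} (Q : Set ℂ) (γ : Fin m → ℝ → ℂ) (L : Fin m → ℝ) : Prop where
  isCompact : IsCompact Q
  connected : IsConnected (interior Q)
  regular : closure (interior Q) = Q
  pos : ∀ i, 0 < L i
  smooth : ∀ i, ContDiff ℝ ∞ (γ i)
  unit : ∀ i s, ‖deriv (γ i) s‖ = 1
  per : ∀ i s, γ i (s + L i) = γ i s
  inj : ∀ i j s t, γ i s = γ j t → i = j ∧ ∃ k : ℤ, t = s + k * L i
  boundary : frontier Q = ⋃ i, Set.range (γ i)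
  side : ∀ i s, ∀ᶠ t : ℝ in 𝓝[>] 0, γ i s + t * (Complex.I * deriv (γ i) s) ∈ interior Q

variable {m : ℕ}

/-- The coordinates `(r, φ)` on the phase space over the boundary curve `γ i`: the state `(q, v)`
with foot point `q = γ i r` and unit velocity `v` which makes the angle `φ` with the inward unit
normal. -/
noncomputable def chart (γ : Fin m → ℝ → ℂ) (i : Fin m) (p : ℝ × ℝ) : ℂ × ℂ :=
  (γ i p.1, Complex.I * deriv (γ i) p.1 * Complex.exp (p.2 * Complex.I))

/-- The phase space: the states `(q, v)`, `q` a boundary point and `v` a unit vector at `q` pointing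
into the table, `|φ| ≤ π / 2`. -/
def states (γ : Fin m → ℝ → ℂ) : Set (ℂ × ℂ) :=
  {x | ∃ (i : Fin m) (p : ℝ × ℝ), |p.2| ≤ Real.pi / 2 ∧ x = chart γ i p}

/-- The states which are not tangential, `|φ| < π / 2`. -/
def transversal (γ : Fin m → ℝ → ℂ) : Set (ℂ × ℂ) :=
  {x | ∃ (i : Fin m) (p : ℝ × ℝ), |p.2| < Real.pi / 2 ∧ x = chart γ i p}

/-- The vector `v` reflected in the line orthogonal to the unit vector `n`. -/
noncomputable def reflect (n v : ℂ) : ℂ := v - 2 * ((conj n * v).re : ℂ) * n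

/-- `x'` is the next state after `x`: the point moves from `x.1` with velocity `x.2` inside the table
until it hits the boundary at `x'.1`, where the velocity is reflected. -/
def IsNext (Q : Set ℂ) (γ : Fin m → ℝ → ℂ) (x x' : ℂ × ℂ) : Prop :=
  ∃ (τ : ℝ) (j : Fin m) (s : ℝ), 0 < τ ∧ x'.1 = x.1 + τ * x.2 ∧ x'.1 = γ j s ∧
    (∀ t : ℝ, 0 < t → t < τ → x.1 + t * x.2 ∈ interior Q) ∧
    x'.2 = reflect (Complex.I * deriv (γ j) s) x.2

/-- The billiard map. -/
noncomputable def billiard (Q : Set ℂ) (γ : Fin m → ℝ → ℂ) (x : ℂ × ℂ) : ℂ × ℂ :=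
  Classical.epsilon (IsNext Q γ x)

/-- The states whose entire (two-sided) orbit is defined and has no tangential collisions. -/
def regularStates (Q : Set ℂ) (γ : Fin m → ℝ → ℂ) : Set (ℂ × ℂ) :=
  {x | ∃ X : ℤ → ℂ × ℂ, X 0 = x ∧ ∀ n, X n ∈ transversal γ ∧ IsNext Q γ (X n) (X (n + 1))}

/-- `A` is the derivative of the billiard map at `x` in the coordinates `(r, φ)`. -/
def IsCoordDeriv (Q : Set ℂ) (γ : Fin m → ℝ → ℂ) (x : ℂ × ℂ) (A : ℝ × ℝ →L[ℝ] ℝ × ℝ) : Prop :=
  ∃ (i j : Fin m) (p : ℝ × ℝ) (F : ℝ × ℝ → ℝ × ℝ), chart γ i p = x ∧ |p.2| < Real.pi / 2 ∧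
    |(F p).2| < Real.pi / 2 ∧ HasFDerivAt F A p ∧
    ∀ᶠ y in 𝓝 p, billiard Q γ (chart γ i y) = chart γ j (F y)

/-- The norm `‖D_x T‖` of the derivative of the billiard map in the coordinates `(r, φ)`. -/
noncomputable def derivNorm (Q : Set ℂ) (γ : Fin m → ℝ → ℂ) (x : ℂ × ℂ) : ℝ :=
  ‖(Classical.epsilon (IsCoordDeriv Q γ x))‖

/-! ### General facts -/

section General

variable {Q : Set ℂ} {γ : Fin m → ℝ → ℂ} {L : Fin m → ℝ}

theorem IsTable.deriv_per (h : IsTable Q γ L) (i : Fin m) (s : ℝ) :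
    deriv (γ i) (s + L i) = deriv (γ i) s := by
  have h1 : (fun s => γ i (s + L i)) = γ i := funext (h.per i)
  have h2 : deriv (fun s => γ i (s + L i)) s = deriv (γ i) (s + L i) :=
    deriv_comp_add_const _ _ _
  rw [← h2, h1]

theorem IsTable.per_int (h : IsTable Q γ L) (i : Fin m) (s : ℝ) (k : ℤ) :
    γ i (s + k * L i) = γ i s ∧ deriv (γ i) (s + k * L i) = deriv (γ i) s := by
  constructor
  · have h1 : Function.Periodic (γ i) (L i) := h.per i
    exact h1.int_mul k s
  · have h1 : Function.Periodic (deriv (γ i)) (L i) := h.deriv_per i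
    exact h1.int_mul k s

theorem IsTable.deriv_eq (h : IsTable Q γ L) {i j : Fin m} {s t : ℝ} (he : γ i s = γ j t) :
    deriv (γ i) s = deriv (γ j) t := by
  obtain ⟨rfl, k, rfl⟩ := h.inj i j s t he
  exact ((h.per_int i s k).2).symm

theorem IsTable.not_interior (h : IsTable Q γ L) (i : Fin m) (s : ℝ) : γ i s ∉ interior Q := by
  have h1 : γ i s ∈ frontier Q := by
    rw [h.boundary]
    exact mem_iUnion.2 ⟨i, mem_range_self s⟩
  exact h1.2

theorem IsTable.next_unique (h : IsTable Q γ L) {x y z : ℂ × ℂ} (h1 : IsNext Q γ x y)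
    (h2 : IsNext Q γ x z) : y = z := by
  obtain ⟨τ, j, s, hτ, e1, e2, hi, e3⟩ := h1
  obtain ⟨τ', j', s', hτ', e1', e2', hi', e3'⟩ := h2
  have ht : τ = τ' := by
    rcases lt_trichotomy τ τ' with hlt | heq | hlt
    · exfalso
      have := hi' τ hτ hlt
      rw [← e1, e2] at this
      exact h.not_interior j s this
    · exact heq
    · exfalso
      have := hi τ' hτ' hlt
      rw [← e1', e2'] at this
      exact h.not_interior j' s' this
  subst ht
  have h3 : y.1 = z.1 := by rw [e1, e1']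
  have h4 : deriv (γ j) s = deriv (γ j') s' := h.deriv_eq (by rw [← e2, ← e2', h3])
  refine Prod.ext h3 ?_
  rw [e3, e3', h4]

theorem IsTable.billiard_eq (h : IsTable Q γ L) {x y : ℂ × ℂ} (h1 : IsNext Q γ x y) :
    billiard Q γ x = y := by
  have h2 : IsNext Q γ x (billiard Q γ x) := Classical.epsilon_spec ⟨y, h1⟩
  exact h.next_unique h2 h1

theorem exp_inj {a b : ℝ} (ha : |a| < Real.pi / 2) (hb : |b| < Real.pi / 2)
    (h : Complex.exp (a * Complex.I) = Complex.exp (b * Complex.I)) : a = b := by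
  rw [abs_lt] at ha hb
  have hs : Real.sin a = Real.sin b := by
    have := congrArg Complex.im h
    rwa [Complex.exp_ofReal_mul_I_im, Complex.exp_ofReal_mul_I_im] at this
  exact Real.strictMonoOn_sin.injOn ⟨by linarith, by linarith⟩ ⟨by linarith, by linarith⟩ hs

/-- equality in charts -/
theorem IsTable.chart_eq (h : IsTable Q γ L) {i j : Fin m} {p p' : ℝ × ℝ}
    (he : chart γ i p = chart γ j p') (h1 : |p.2| < Real.pi / 2) (h2 : |p'.2| < Real.pi / 2) :
    i = j ∧ (∃ k : ℤ, p'.1 = p.1 + k * L i) ∧ p.2 = p'.2 := by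
  have e1 : γ i p.1 = γ j p'.1 := congrArg Prod.fst he
  have e2 : Complex.I * deriv (γ i) p.1 * Complex.exp (p.2 * Complex.I) =
    Complex.I * deriv (γ j) p'.1 * Complex.exp (p'.2 * Complex.I) := congrArg Prod.snd he
  obtain ⟨h3, h4⟩ := h.inj i j _ _ e1
  refine ⟨h3, h4, exp_inj h1 h2 ?_⟩
  rw [← h.deriv_eq e1] at e2
  have hne : Complex.I * deriv (γ i) p.1 ≠ 0 := by
    apply mul_ne_zero Complex.I_ne_zero
    rw [← norm_ne_zero_iff, h.unit]
    exact one_ne_zero
  exact mul_left_cancel₀ hne e2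

/-- the derivative in coordinates is unique -/
theorem IsTable.coordDeriv_unique (h : IsTable Q γ L) {x : ℂ × ℂ} {A B : ℝ × ℝ →L[ℝ] ℝ × ℝ}
    (hA : IsCoordDeriv Q γ x A) (hB : IsCoordDeriv Q γ x B) : A = B := by
  obtain ⟨i, j, p, F, e1, hp, hFp, hF, hT⟩ := hA
  obtain ⟨i', j', p', G, e1', hp', hGp, hG, hT'⟩ := hB
  obtain ⟨rfl, ⟨k, hk⟩, h2⟩ := h.chart_eq (e1.trans e1'.symm) hp hp'
  set c : ℝ × ℝ := (k * L i, 0) with hc
  have hpc : p' = p + c := by
    ext
    · simp [hc, hk]
    · simp [hc, h2]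
  -- shift
  have hshift : ∀ y : ℝ × ℝ, chart γ i (y + c) = chart γ i y := by
    intro y
    unfold chart
    have := h.per_int i y.1 k
    simp only [hc, Prod.fst_add, Prod.snd_add, add_zero, this.1, this.2]
  have hsh : Tendsto (fun y : ℝ × ℝ => y + c) (𝓝 p) (𝓝 p') := by
    have : Continuous fun y : ℝ × ℝ => y + c := by fun_prop
    rw [hpc]
    exact this.tendsto p
  have hT2 : ∀ᶠ y in 𝓝 p, chart γ j (F y) = chart γ j' (G (y + c)) := by
    filter_upwards [hT, hsh.eventually hT'] with y h3 h4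
    rw [← h3, ← h4, hshift]
  have hFc : ContinuousAt F p := hF.continuousAt
  have hG2 : HasFDerivAt (fun y => G (y + c)) B p := by
    have h5 : HasFDerivAt G B (p + c) := by rw [← hpc]; exact hG
    have h6 : HasFDerivAt (fun y : ℝ × ℝ => y + c) (ContinuousLinearMap.id ℝ (ℝ × ℝ)) p :=
      (hasFDerivAt_id p).add_const c
    have h7 := h5.comp p h6
    rw [ContinuousLinearMap.comp_id] at h7
    exact h7
  have hGc : ContinuousAt (fun y => G (y + c)) p := hG2.continuousAt
  have hop : IsOpen {y : ℝ × ℝ | |y.2| < Real.pi / 2} :=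
    isOpen_lt (continuous_abs.comp continuous_snd) continuous_const
  have h8 : ∀ᶠ y in 𝓝 p, |(F y).2| < Real.pi / 2 :=
    hFc.eventually (hop.mem_nhds hFp)
  have h9 : ∀ᶠ y in 𝓝 p, |(G (y + c)).2| < Real.pi / 2 := by
    refine hGc.eventually (hop.mem_nhds ?_)
    show |(G (p + c)).2| < Real.pi / 2
    rw [← hpc]
    exact hGp
  have h10 : ∀ᶠ y in 𝓝 p, (∃ k : ℤ, (G (y + c)).1 = (F y).1 + k * L j) ∧
      (F y).2 = (G (y + c)).2 := by
    filter_upwards [hT2, h8, h9] with y a1 a2 a3
    exact (h.chart_eq a1 a2 a3).2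
  obtain ⟨⟨k0, hk0⟩, _⟩ := h10.self_of_nhds
  -- the integer is locally constant
  have h11 : ∀ᶠ y in 𝓝 p, |((G (y + c)).1 - (F y).1) - k0 * L j| < L j := by
    have hcont : ContinuousAt (fun y => |((G (y + c)).1 - (F y).1) - k0 * L j|) p := by
      have a1 : ContinuousAt (fun y => (G (y + c)).1) p := continuousAt_fst.comp hGc
      have a2 : ContinuousAt (fun y => (F y).1) p := continuousAt_fst.comp hFc
      exact ((a1.sub a2).sub continuousAt_const).abs
    refine hcont.eventually (gt_mem_nhds ?_)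
    show |((G (p + c)).1 - (F p).1) - k0 * L j| < L j
    rw [hk0]
    simp [h.pos j]
  have h12 : ∀ᶠ y in 𝓝 p, G (y + c) = F y + (k0 * L j, 0) := by
    filter_upwards [h10, h11] with y a1 a2
    obtain ⟨⟨k1, a3⟩, a4⟩ := a1
    have a5 : k1 = k0 := by
      rw [a3] at a2
      have a6 : (F y).1 + k1 * L j - (F y).1 - k0 * L j = (k1 - k0 : ℤ) * L j := by
        push_cast
        ring
      rw [a6, abs_mul, abs_of_pos (h.pos j)] at a2
      have a7 : |((k1 - k0 : ℤ) : ℝ)| < 1 := by
        by_contra hcon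
        push Not at hcon
        nlinarith [h.pos j]
      have a8 : |k1 - k0| < 1 := by exact_mod_cast a7
      have a9 : k1 - k0 = 0 := Int.abs_lt_one_iff.1 a8
      omega
    ext
    · simp [a3, a5]
    · simp [a4]
  have h13 : HasFDerivAt (fun y => F y + (k0 * L j, (0 : ℝ))) B p :=
    hG2.congr_of_eventuallyEq (h12.mono fun y hy => hy.symm)
  have h14 : HasFDerivAt (fun y => F y + (k0 * L j, (0 : ℝ))) A p := hF.add_const _
  exact h14.unique h13

end General

end Pool.Agent.TH311.Os
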