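import Pool.Agent.TH311.Os.Map

/-!
# The derivative of the billiard map of the annulus
-/

set_option autoImplicit false

open Set Filter Topology MeasureTheory
open scoped ContDiff ComplexConjugate

namespace Pool.Agent.TH311.Os

/-- angle at the inner circle -/
noncomputable def Ph (ψ : ℝ) : ℝ := Real.arcsin (2 * Real.sin (-ψ))

theorem Ph_lt {ψ : ℝ} (h : |2 * Real.sin ψ| < 1) : |Ph ψ| < Real.pi / 2 := by
  have h1 := abs_lt.1 h
  unfold Ph
  rw [Real.sin_neg, abs_lt]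
  constructor
  · exact Real.neg_pi_div_two_lt_arcsin.2 (by linarith)
  · exact Real.arcsin_lt_pi_div_two.2 (by linarith)

theorem po_Ph {ψ : ℝ} (h1 : |ψ| < Real.pi / 2) (h : |2 * Real.sin ψ| < 1) : po (Ph ψ) = -ψ := by
  have h2 := abs_lt.1 h
  have h3 := abs_lt.1 h1
  unfold po Ph
  rw [Real.sin_arcsin (by rw [Real.sin_neg]; linarith) (by rw [Real.sin_neg]; linarith),
    mul_div_cancel_left₀ _ (two_ne_zero), Real.arcsin_sin] <;> linarith

theorem Ph_po {φ : ℝ} (h : |φ| < Real.pi / 2) : Ph (-(po φ)) = φ := by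
  have h3 := abs_lt.1 h
  unfold Ph
  rw [neg_neg, sin_po, mul_div_cancel₀ _ (two_ne_zero), Real.arcsin_sin] <;> linarith

/-- the coordinate expression of the map from the outer to the inner circle -/
noncomputable def Fo (y : ℝ × ℝ) : ℝ × ℝ := (-(y.1 / 2 + Ph y.2 + y.2), Ph y.2)

/-- the coordinate expression of the map from the inner to the outer circle -/
noncomputable def Fi (y : ℝ × ℝ) : ℝ × ℝ := (2 * (-y.1 + dl y.2), -(po y.2))

theorem bill_chart0 {y : ℝ × ℝ} (h1 : |y.2| < Real.pi / 2) (h2 : |2 * Real.sin y.2| < 1) :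
    billiard Q ga (chart ga 0 y) = chart ga 1 (Fo y) := by
  have h3 : chart ga 0 y = Go (Ph y.2) (ex (y.1 / 2)) := by
    rw [chart0]
    unfold Go
    rw [po_Ph h1 h2, neg_neg]
  rw [h3, bill_o (Ph_lt h2) (norm_ex _), ← ex_add, Gi_chart]
  unfold Fo dl
  rw [po_Ph h1 h2]
  congr 2
  ring

theorem bill_chart1 {y : ℝ × ℝ} (h1 : |y.2| < Real.pi / 2) :
    billiard Q ga (chart ga 1 y) = chart ga 0 (Fi y) := by
  have h3 : chart ga 1 y = Gi y.2 (ex (-y.1)) := by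
    rw [chart1]
    rfl
  rw [h3, bill_i h1 (norm_ex _), ← ex_add, Go_chart]
  rfl

theorem hasDerivAt_Ph {φ : ℝ} (h : |φ| < Real.pi / 2) :
    HasDerivAt Ph (-(2 * Real.cos (po φ) / Real.cos φ)) (-(po φ)) := by
  have h1 := abs_lt.1 h
  have h2 : 0 < Real.cos φ := Real.cos_pos_of_mem_Ioo ⟨h1.1, h1.2⟩
  have h3 : 2 * Real.sin (-(-(po φ))) = Real.sin φ := by
    rw [neg_neg, sin_po]
    ring
  have h4 : HasDerivAt (fun ψ : ℝ => 2 * Real.sin (-ψ)) (-(2 * Real.cos (po φ))) (-(po φ)) := by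
    have h5 : HasDerivAt (fun ψ : ℝ => -ψ) (-1) (-(po φ)) := (hasDerivAt_id _).neg
    have h6 := (h5.sin).const_mul 2
    refine h6.congr_deriv ?_
    rw [neg_neg]
    ring
  have hsq := Real.sin_sq_add_cos_sq φ
  have h7 : HasDerivAt Real.arcsin (1 / √(1 - (2 * Real.sin (-(-(po φ)))) ^ 2))
      (2 * Real.sin (-(-(po φ)))) := by
    rw [h3]
    refine Real.hasDerivAt_arcsin ?_ ?_
    · intro hc
      rw [hc] at hsq
      nlinarith
    · intro hc
      rw [hc] at hsq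
      nlinarith
  have h8 := h7.comp (-(po φ)) h4
  refine h8.congr_deriv ?_
  rw [h3]
  have h9 : √(1 - Real.sin φ ^ 2) = Real.cos φ := by
    rw [show 1 - Real.sin φ ^ 2 = Real.cos φ ^ 2 by linarith]
    exact Real.sqrt_sq h2.le
  rw [h9]
  ring

/-- the derivative of `Fo` -/
noncomputable def Ao (D : ℝ) : ℝ × ℝ →L[ℝ] ℝ × ℝ :=
  (-((1 / 2 : ℝ) • ContinuousLinearMap.fst ℝ ℝ ℝ + D • ContinuousLinearMap.snd ℝ ℝ ℝ +
    ContinuousLinearMap.snd ℝ ℝ ℝ)).prod (D • ContinuousLinearMap.snd ℝ ℝ ℝ)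

theorem hasFDerivAt_Fo {D : ℝ} {p : ℝ × ℝ} (h : HasDerivAt Ph D p.2) :
    HasFDerivAt Fo (Ao D) p := by
  have h1 : HasFDerivAt (fun y : ℝ × ℝ => y.1) (ContinuousLinearMap.fst ℝ ℝ ℝ) p :=
    hasFDerivAt_fst
  have h2 : HasFDerivAt (fun y : ℝ × ℝ => y.2) (ContinuousLinearMap.snd ℝ ℝ ℝ) p :=
    hasFDerivAt_snd
  have h3 : HasFDerivAt (fun y : ℝ × ℝ => Ph y.2) (D • ContinuousLinearMap.snd ℝ ℝ ℝ) p :=
    h.comp_hasFDerivAt p h2
  have h4 : HasFDerivAt (fun y : ℝ × ℝ => y.1 / 2)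
      ((1 / 2 : ℝ) • ContinuousLinearMap.fst ℝ ℝ ℝ) p := by
    have h5 := h1.const_smul (1 / 2 : ℝ)
    refine h5.congr_of_eventuallyEq (Eventually.of_forall fun y => ?_)
    show y.1 / 2 = (1 / 2 : ℝ) • y.1
    rw [smul_eq_mul]
    ring
  exact (((h4.add h3).add h2).neg).prodMk h3

theorem norm_Ao (D : ℝ) : |D| ≤ ‖Ao D‖ := by
  have h1 := (Ao D).le_opNorm (0, 1)
  have h2 : ‖((0 : ℝ), (1 : ℝ))‖ = 1 := by simp [Prod.norm_def]
  rw [h2, mul_one] at h1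
  have h3 : |D| ≤ ‖Ao D (0, 1)‖ := by
    have h4 : (Ao D (0, 1)).2 = D := by simp [Ao]
    have h5 := norm_snd_le (Ao D (0, 1))
    rw [h4, Real.norm_eq_abs] at h5
    exact h5
  exact h3.trans h1

theorem coordDeriv_o {φ : ℝ} (h : |φ| < Real.pi / 2) {z : ℂ} (hz : ‖z‖ = 1) :
    IsCoordDeriv Q ga (Go φ z) (Ao (-(2 * Real.cos (po φ) / Real.cos φ))) := by
  obtain ⟨a, rfl⟩ := exists_ex hz
  refine ⟨0, 1, (2 * a, -(po φ)), Fo, (Go_chart φ a).symm, ?_, ?_, ?_, ?_⟩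
  · show |-(po φ)| < _
    rw [abs_neg]
    exact po_lt φ
  · show |Ph (-(po φ))| < _
    rw [Ph_po h]
    exact h
  · exact hasFDerivAt_Fo (hasDerivAt_Ph h)
  · have h1 : IsOpen {y : ℝ × ℝ | |y.2| < Real.pi / 2} :=
      isOpen_lt (continuous_abs.comp continuous_snd) continuous_const
    have h2 : IsOpen {y : ℝ × ℝ | |2 * Real.sin y.2| < 1} :=
      isOpen_lt (by fun_prop) continuous_const
    have h3 : ((2 * a, -(po φ)) : ℝ × ℝ) ∈ {y : ℝ × ℝ | |y.2| < Real.pi / 2} := by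
      show |-(po φ)| < _
      rw [abs_neg]
      exact po_lt φ
    have h4 : ((2 * a, -(po φ)) : ℝ × ℝ) ∈ {y : ℝ × ℝ | |2 * Real.sin y.2| < 1} := by
      show |2 * Real.sin (-(po φ))| < 1
      rw [Real.sin_neg, sin_po, mul_neg, abs_neg, mul_div_cancel₀ _ (two_ne_zero)]
      have h5 := abs_lt.1 h
      have h6 : 0 < Real.cos φ := Real.cos_pos_of_mem_Ioo ⟨h5.1, h5.2⟩
      have h7 := Real.sin_sq_add_cos_sq φ
      rw [abs_lt]
      constructor <;> nlinarith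
    filter_upwards [h1.mem_nhds h3, h2.mem_nhds h4] with y h5 h6
    exact bill_chart0 h5 h6

/-- the norm of the derivative at the outer circle -/
theorem derivNorm_o {φ : ℝ} (h : |φ| < Real.pi / 2) {z : ℂ} (hz : ‖z‖ = 1) :
    1 / Real.cos φ ≤ derivNorm Q ga (Go φ z) := by
  have h1 := coordDeriv_o h hz
  have h2 : IsCoordDeriv Q ga (Go φ z) (Classical.epsilon (IsCoordDeriv Q ga (Go φ z))) :=
    Classical.epsilon_spec ⟨_, h1⟩
  have h3 := isTable.coordDeriv_unique h2 h1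
  unfold derivNorm
  rw [h3]
  refine le_trans ?_ (norm_Ao _)
  have h5 := abs_lt.1 h
  have h6 : 0 < Real.cos φ := Real.cos_pos_of_mem_Ioo ⟨h5.1, h5.2⟩
  have h7 := cos_po_pos φ
  have h8 := cos_po_sq φ
  rw [abs_neg, abs_of_pos (by positivity)]
  apply div_le_div_of_nonneg_right _ h6.le
  nlinarith [sq_nonneg (Real.cos φ)]

theorem hasDerivAt_po (ψ : ℝ) : DifferentiableAt ℝ po ψ := by
  unfold po
  have h1 : Real.sin ψ / 2 ≠ -1 := by
    have := Real.neg_one_le_sin ψ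
    linarith
  have h2 : Real.sin ψ / 2 ≠ 1 := by
    have := Real.sin_le_one ψ
    linarith
  have h3 := (Real.hasDerivAt_arcsin h1 h2).differentiableAt
  have h4 : DifferentiableAt ℝ (fun ψ : ℝ => Real.sin ψ / 2) ψ :=
    Real.differentiableAt_sin.div_const 2
  exact DifferentiableAt.comp (g := Real.arcsin) (f := fun ψ : ℝ => Real.sin ψ / 2) ψ h3 h4

theorem coordDeriv_i {φ : ℝ} (h : |φ| < Real.pi / 2) {z : ℂ} (hz : ‖z‖ = 1) :
    ∃ A, IsCoordDeriv Q ga (Gi φ z) A := by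
  obtain ⟨a, rfl⟩ := exists_ex hz
  have hd : DifferentiableAt ℝ Fi (-a, φ) := by
    unfold Fi dl
    have h1 : DifferentiableAt ℝ (fun y : ℝ × ℝ => po y.2) (-a, φ) :=
      DifferentiableAt.comp (g := po) (f := fun y : ℝ × ℝ => y.2) (-a, φ) (hasDerivAt_po φ)
        differentiableAt_snd
    fun_prop
  refine ⟨fderiv ℝ Fi (-a, φ), 1, 0, (-a, φ), Fi, (Gi_chart φ a).symm, h, ?_,
    hd.hasFDerivAt, ?_⟩
  · show |-(po φ)| < _
    rw [abs_neg]
    exact po_lt φ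
  · have h1 : IsOpen {y : ℝ × ℝ | |y.2| < Real.pi / 2} :=
      isOpen_lt (continuous_abs.comp continuous_snd) continuous_const
    filter_upwards [h1.mem_nhds (show ((-a, φ) : ℝ × ℝ) ∈ {y : ℝ × ℝ | |y.2| < Real.pi / 2}
      from h)] with y h5
    exact bill_chart1 h5

theorem existsUnique_o {φ : ℝ} (h : |φ| < Real.pi / 2) {z : ℂ} (hz : ‖z‖ = 1) :
    ∃! A, IsCoordDeriv Q ga (Go φ z) A :=
  ⟨_, coordDeriv_o h hz, fun _ hB => isTable.coordDeriv_unique hB (coordDeriv_o h hz)⟩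

theorem existsUnique_i {φ : ℝ} (h : |φ| < Real.pi / 2) {z : ℂ} (hz : ‖z‖ = 1) :
    ∃! A, IsCoordDeriv Q ga (Gi φ z) A := by
  obtain ⟨A, hA⟩ := coordDeriv_i h hz
  exact ⟨A, hA, fun _ hB => isTable.coordDeriv_unique hB hA⟩

end Pool.Agent.TH311.Os
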