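import Pool.Agent.TH311.Os.Ann

/-!
# The billiard map of the annulus
-/

set_option autoImplicit false

open Set Filter Topology MeasureTheory
open scoped ContDiff ComplexConjugate

namespace Pool.Agent.TH311.Os

/-- angle at the outer circle -/
noncomputable def po (φ : ℝ) : ℝ := Real.arcsin (Real.sin φ / 2)

/-- rotation angle -/
noncomputable def dl (φ : ℝ) : ℝ := φ - po φ

/-- `exp (I φ)` -/
noncomputable def ex (φ : ℝ) : ℂ := Complex.exp (φ * Complex.I)

theorem ex_eq (φ : ℝ) : ex φ = (Real.cos φ : ℂ) + (Real.sin φ : ℂ) * Complex.I := by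
  unfold ex
  rw [Complex.exp_mul_I, Complex.ofReal_cos, Complex.ofReal_sin]

theorem ex_re (a : ℝ) : (ex a).re = Real.cos a := Complex.exp_ofReal_mul_I_re a

theorem ex_add (a b : ℝ) : ex (a + b) = ex a * ex b := by
  unfold ex
  rw [← Complex.exp_add]
  congr 1
  push_cast
  ring

theorem ex_zero : ex 0 = 1 := by simp [ex]

theorem norm_ex (a : ℝ) : ‖ex a‖ = 1 := Complex.norm_exp_ofReal_mul_I a

theorem ex_ne (a : ℝ) : ex a ≠ 0 := Complex.exp_ne_zero _

theorem ex_neg_mul (a : ℝ) : ex (-a) * ex a = 1 := by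
  rw [← ex_add, neg_add_cancel, ex_zero]

/-- state at the inner circle -/
noncomputable def Gi (φ : ℝ) (z : ℂ) : ℂ × ℂ := (z, z * ex φ)

/-- state at the outer circle -/
noncomputable def Go (φ : ℝ) (z : ℂ) : ℂ × ℂ := (2 * z, -(z * ex (-(po φ))))

theorem sin_po (φ : ℝ) : Real.sin (po φ) = Real.sin φ / 2 := by
  unfold po
  rw [Real.sin_arcsin] <;> linarith [Real.neg_one_le_sin φ, Real.sin_le_one φ]

theorem po_lt (φ : ℝ) : |po φ| < Real.pi / 2 := by
  unfold po
  rw [abs_lt]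
  constructor
  · exact Real.neg_pi_div_two_lt_arcsin.2 (by linarith [Real.neg_one_le_sin φ])
  · exact Real.arcsin_lt_pi_div_two.2 (by linarith [Real.sin_le_one φ])

theorem cos_po_pos (φ : ℝ) : 0 < Real.cos (po φ) := by
  have := abs_lt.1 (po_lt φ)
  exact Real.cos_pos_of_mem_Ioo ⟨this.1, this.2⟩

theorem cos_po_sq (φ : ℝ) : 4 * Real.cos (po φ) ^ 2 = 3 + Real.cos φ ^ 2 := by
  have h1 := Real.sin_sq_add_cos_sq (po φ)
  have h2 := Real.sin_sq_add_cos_sq φ
  rw [sin_po] at h1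
  nlinarith

theorem tau_pos {φ : ℝ} (h : |φ| < Real.pi / 2) : 0 < 2 * Real.cos (po φ) - Real.cos φ := by
  have h1 := abs_lt.1 h
  have h2 : 0 < Real.cos φ := Real.cos_pos_of_mem_Ioo ⟨h1.1, h1.2⟩
  have h3 := cos_po_pos φ
  have h4 := cos_po_sq φ
  nlinarith

theorem normSq_line (c s t : ℝ) :
    ‖(1 : ℂ) + t * ((c : ℂ) + (s : ℂ) * Complex.I)‖ ^ 2 = (1 + t * c) ^ 2 + (t * s) ^ 2 := by
  rw [← Complex.normSq_eq_norm_sq, Complex.normSq_apply]
  simp
  ring

theorem bounds_line {φ t : ℝ} (h : |φ| < Real.pi / 2) (ht : 0 < t)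
    (ht2 : t < 2 * Real.cos (po φ) - Real.cos φ) {z w : ℂ} (hz : ‖z‖ = 1)
    (hw : w = z * (1 + t * ex φ)) : w ∈ interior Q := by
  have h1 := abs_lt.1 h
  have h2 : 0 < Real.cos φ := Real.cos_pos_of_mem_Ioo ⟨h1.1, h1.2⟩
  have h3 := cos_po_pos φ
  have h4 := cos_po_sq φ
  have h5 : ‖w‖ ^ 2 = 1 + 2 * t * Real.cos φ + t ^ 2 := by
    rw [hw, norm_mul, hz, one_mul, ex_eq, normSq_line]
    nlinarith [Real.sin_sq_add_cos_sq φ]
  have h6 : 0 ≤ ‖w‖ := norm_nonneg w
  have h8 : 0 < t * Real.cos φ := mul_pos ht h2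
  have h9 : 0 < t ^ 2 := by positivity
  rw [interior_Q]
  constructor
  · have : 1 < ‖w‖ ^ 2 := by rw [h5]; linarith
    nlinarith
  · have h7 : (t + Real.cos φ) ^ 2 < (2 * Real.cos (po φ)) ^ 2 := by
      apply pow_lt_pow_left₀ (by linarith) (by positivity) (by norm_num)
    have : ‖w‖ ^ 2 < 2 ^ 2 := by rw [h5]; nlinarith
    exact lt_of_pow_lt_pow_left₀ 2 (by norm_num) this

theorem pos_eq (φ : ℝ) :
    1 + ((2 * Real.cos (po φ) - Real.cos φ : ℝ) : ℂ) * ex φ = 2 * ex (dl φ) := by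
  have h0 : ex (dl φ) = ex φ * ex (-(po φ)) := by
    rw [← ex_add]
    rfl
  rw [h0, ex_eq, ex_eq, Real.cos_neg, Real.sin_neg, sin_po]
  have h1 : ((Real.sin φ : ℂ)) ^ 2 + (Real.cos φ : ℂ) ^ 2 = 1 := by
    exact_mod_cast Real.sin_sq_add_cos_sq φ
  push_cast
  have hI : Complex.I ^ 2 = -1 := Complex.I_sq
  have : (1 : ℂ) + (2 * (Real.cos (po φ) : ℂ) - Real.cos φ) *
      (Real.cos φ + Real.sin φ * Complex.I) -
      2 * ((Real.cos φ + Real.sin φ * Complex.I) *
      ((Real.cos (po φ) : ℂ) + -(Real.sin φ / 2) * Complex.I)) = 0 := by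
    linear_combination (1 : ℂ) * h1 * (-1) + (Real.sin φ : ℂ) ^ 2 * hI
  push_cast at this
  linear_combination this

theorem conj_mul_self' {z : ℂ} (hz : ‖z‖ = 1) : conj z * z = 1 := by
  rw [mul_comm, Complex.mul_conj, Complex.normSq_eq_norm_sq, hz]
  simp

theorem dl_add_po (φ : ℝ) : dl φ + po φ = φ := by unfold dl; ring

/-- from the inner circle to the outer one -/
theorem next_i {φ : ℝ} (h : |φ| < Real.pi / 2) {z : ℂ} (hz : ‖z‖ = 1) :
    IsNext Q ga (Gi φ z) (Go φ (z * ex (dl φ))) := by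
  set z' := z * ex (dl φ) with hz'
  have hz'n : ‖z'‖ = 1 := by rw [hz', norm_mul, hz, norm_ex, mul_one]
  obtain ⟨s, hs⟩ : ∃ s, go s = 2 * z' := by
    have : (2 * z') ∈ range go := by
      rw [range_go]
      show ‖2 * z'‖ = 2
      rw [norm_mul, hz'n]
      simp
    exact this
  have hs' : Complex.exp ((s / 2 : ℝ) * Complex.I) = z' := by
    unfold go at hs
    exact mul_left_cancel₀ two_ne_zero hs
  refine ⟨2 * Real.cos (po φ) - Real.cos φ, 0, s, tau_pos h, ?_, ?_, ?_, ?_⟩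
  · show 2 * z' = z + ((2 * Real.cos (po φ) - Real.cos φ : ℝ) : ℂ) * (z * ex φ)
    rw [hz']
    linear_combination (-z) * pos_eq φ
  · show 2 * z' = go s
    exact hs.symm
  · intro t ht ht2
    refine bounds_line h ht ht2 hz ?_
    show z + t * (z * ex φ) = z * (1 + t * ex φ)
    ring
  · show -(z' * ex (-(po φ))) = reflect (Complex.I * deriv go s) (z * ex φ)
    rw [normal_go, hs']
    have hv : z * ex φ = z' * ex (po φ) := by
      rw [hz', mul_assoc, ← ex_add, dl_add_po]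
    rw [hv]
    unfold reflect
    have h1 : conj (-z') * (z' * ex (po φ)) = - ex (po φ) := by
      rw [map_neg, ← mul_assoc, neg_mul, conj_mul_self' hz'n]
      ring
    rw [h1]
    have h2 : (-ex (po φ)).re = - Real.cos (po φ) := by
      rw [Complex.neg_re, ex_re]
    rw [h2, ex_eq, ex_eq, Real.cos_neg, Real.sin_neg]
    push_cast
    ring

/-- from the outer circle to the inner one -/
theorem next_o {φ : ℝ} (h : |φ| < Real.pi / 2) {z : ℂ} (hz : ‖z‖ = 1) :
    IsNext Q ga (Go φ z) (Gi φ (z * ex (dl φ))) := by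
  set z' := z * ex (dl φ) with hz'
  have hz'n : ‖z'‖ = 1 := by rw [hz', norm_mul, hz, norm_ex, mul_one]
  obtain ⟨s, hs⟩ : ∃ s, gi s = z' := by
    have : z' ∈ range gi := by
      rw [range_gi]
      exact hz'n
    exact this
  have hs' : Complex.exp ((-s : ℝ) * Complex.I) = z' := by
    unfold gi at hs
    exact hs
  -- the key identity: the path reversed
  have hkey : 2 * z = z' + ((2 * Real.cos (po φ) - Real.cos φ : ℝ) : ℂ) * (z * ex (-(po φ))) := by
    have h1 := pos_eq (-φ)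
    have h2 : po (-φ) = - po φ := by
      unfold po
      rw [Real.sin_neg, neg_div, Real.arcsin_neg]
    have h3 : dl (-φ) = - dl φ := by
      unfold dl
      rw [h2]
      ring
    rw [h2, h3, Real.cos_neg, Real.cos_neg] at h1
    have h4 : ex (-φ) * ex (dl φ) = ex (-(po φ)) := by
      rw [← ex_add]
      congr 1
      unfold dl
      ring
    have h5 : ex (-(dl φ)) * ex (dl φ) = 1 := ex_neg_mul _
    rw [hz', ← h4]
    linear_combination (-z * ex (dl φ)) * h1 + (-2 * z) * h5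
  refine ⟨2 * Real.cos (po φ) - Real.cos φ, 1, s, tau_pos h, ?_, ?_, ?_, ?_⟩
  · show z' = 2 * z + ((2 * Real.cos (po φ) - Real.cos φ : ℝ) : ℂ) * -(z * ex (-(po φ)))
    linear_combination -hkey
  · show z' = gi s
    exact hs.symm
  · intro t ht ht2
    refine bounds_line (φ := -φ) (by rwa [abs_neg])
      (t := 2 * Real.cos (po φ) - Real.cos φ - t) (by linarith) ?_ hz'n ?_
    · have h2 : po (-φ) = - po φ := by
        unfold po
        rw [Real.sin_neg, neg_div, Real.arcsin_neg]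
      rw [h2, Real.cos_neg, Real.cos_neg]
      linarith
    · show 2 * z + t * -(z * ex (-(po φ))) = _
      have h4 : ex (-(po φ)) = ex (dl φ) * ex (-φ) := by
        rw [← ex_add]
        congr 1
        unfold dl
        ring
      rw [hkey, h4, hz']
      push_cast
      ring
  · show z' * ex φ = reflect (Complex.I * deriv gi s) (-(z * ex (-(po φ))))
    rw [normal_gi, hs']
    have hv : z * ex (-(po φ)) = z' * ex (-φ) := by
      rw [hz', mul_assoc, ← ex_add]
      congr 2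
      unfold dl
      ring
    rw [hv]
    unfold reflect
    have h1 : conj z' * -(z' * ex (-φ)) = - ex (-φ) := by
      rw [mul_neg, ← mul_assoc, conj_mul_self' hz'n]
      ring
    rw [h1]
    have h2 : (-ex (-φ)).re = - Real.cos φ := by
      rw [Complex.neg_re, ex_re, Real.cos_neg]
    rw [h2, ex_eq, ex_eq, Real.cos_neg, Real.sin_neg]
    push_cast
    ring

theorem bill_i {φ : ℝ} (h : |φ| < Real.pi / 2) {z : ℂ} (hz : ‖z‖ = 1) :
    billiard Q ga (Gi φ z) = Go φ (z * ex (dl φ)) := isTable.billiard_eq (next_i h hz)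

theorem bill_o {φ : ℝ} (h : |φ| < Real.pi / 2) {z : ℂ} (hz : ‖z‖ = 1) :
    billiard Q ga (Go φ z) = Gi φ (z * ex (dl φ)) := isTable.billiard_eq (next_o h hz)

/-- chart on the outer circle -/
theorem chart0 (p : ℝ × ℝ) : chart ga 0 p = (2 * ex (p.1 / 2), -(ex (p.1 / 2) * ex p.2)) := by
  unfold chart
  rw [ga0, normal_go]
  refine Prod.ext ?_ ?_
  · rfl
  · show -Complex.exp ((p.1 / 2 : ℝ) * Complex.I) * Complex.exp (p.2 * Complex.I) = _
    unfold ex
    ring

/-- chart on the inner circle -/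
theorem chart1 (p : ℝ × ℝ) : chart ga 1 p = (ex (-p.1), ex (-p.1) * ex p.2) := by
  unfold chart
  rw [ga1, normal_gi]
  rfl

theorem exists_ex {z : ℂ} (hz : ‖z‖ = 1) : ∃ a : ℝ, z = ex a :=
  ⟨Complex.arg z, by
    have := Complex.norm_mul_exp_arg_mul_I z
    rw [hz] at this
    unfold ex
    simpa using this.symm⟩

theorem Gi_chart (φ a : ℝ) : Gi φ (ex a) = chart ga 1 (-a, φ) := by
  rw [chart1]
  simp [Gi]

theorem Go_chart (φ a : ℝ) : Go φ (ex a) = chart ga 0 (2 * a, -(po φ)) := by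
  rw [chart0]
  simp [Go]

theorem Gi_trans {φ : ℝ} (h : |φ| < Real.pi / 2) {z : ℂ} (hz : ‖z‖ = 1) :
    Gi φ z ∈ transversal ga := by
  obtain ⟨a, rfl⟩ := exists_ex hz
  exact ⟨1, (-a, φ), h, Gi_chart φ a⟩

theorem Go_trans (φ : ℝ) {z : ℂ} (hz : ‖z‖ = 1) :
    Go φ z ∈ transversal ga := by
  obtain ⟨a, rfl⟩ := exists_ex hz
  refine ⟨0, (2 * a, -(po φ)), ?_, Go_chart φ a⟩
  show |-(po φ)| < _
  rw [abs_neg]
  exact po_lt φ

/-- the full orbit -/
noncomputable def orb (φ : ℝ) (z : ℂ) (n : ℤ) : ℂ × ℂ :=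
  if Even n then Gi φ (z * ex (n * dl φ)) else Go φ (z * ex (n * dl φ))

theorem orb_next {φ : ℝ} (h : |φ| < Real.pi / 2) {z : ℂ} (hz : ‖z‖ = 1) (n : ℤ) :
    orb φ z n ∈ transversal ga ∧ IsNext Q ga (orb φ z n) (orb φ z (n + 1)) := by
  have hn : ‖z * ex (n * dl φ)‖ = 1 := by rw [norm_mul, hz, norm_ex, mul_one]
  have he : z * ex (n * dl φ) * ex (dl φ) = z * ex ((n + 1 : ℤ) * dl φ) := by
    rw [mul_assoc, ← ex_add]
    congr 2
    push_cast
    ring
  by_cases hp : Even n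
  · have hp' : ¬ Even (n + 1) := by
      rw [Int.even_add_one]
      simpa using hp
    unfold orb
    rw [if_pos hp, if_neg hp', ← he]
    exact ⟨Gi_trans h hn, next_i h hn⟩
  · have hp' : Even (n + 1) := by
      rw [Int.even_add_one]
      exact hp
    unfold orb
    rw [if_neg hp, if_pos hp', ← he]
    exact ⟨Go_trans φ hn, next_o h hn⟩

theorem Gi_regular {φ : ℝ} (h : |φ| < Real.pi / 2) {z : ℂ} (hz : ‖z‖ = 1) :
    Gi φ z ∈ regularStates Q ga := by
  refine ⟨orb φ z, ?_, orb_next h hz⟩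
  unfold orb
  simp [ex_zero]

theorem Go_regular {φ : ℝ} (h : |φ| < Real.pi / 2) {z : ℂ} (hz : ‖z‖ = 1) :
    Go φ z ∈ regularStates Q ga := by
  refine ⟨fun n => orb φ (z * ex (-(dl φ))) (n + 1), ?_, fun n => orb_next h ?_ (n + 1)⟩
  · unfold orb
    have h1 : z * ex (-(dl φ)) * ex (((0 + 1 : ℤ) : ℝ) * dl φ) = z := by
      rw [mul_assoc, ← ex_add]
      have : -(dl φ) + ((0 + 1 : ℤ) : ℝ) * dl φ = 0 := by push_cast; ring
      rw [this, ex_zero, mul_one]
    show (if Even ((0 : ℤ) + 1) then _ else _) = _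
    rw [if_neg (by decide), h1]
  · rw [norm_mul, hz, norm_ex, mul_one]

end Pool.Agent.TH311.Os
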