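import Pool.Agent.TH311.Os.Der

/-!
# The invariant measure
-/

set_option autoImplicit false

open Set Filter Topology MeasureTheory
open scoped ComplexConjugate ENNReal

namespace Pool.Agent.TH311.Os

/-! ### the heavy tailed measure on the line -/

/-- density `x⁻²` on `(1, ∞)` -/
noncomputable def eta : Measure ℝ :=
  (volume.restrict (Ioi 1)).withDensity fun x => ENNReal.ofReal (x ^ (-2 : ℝ))

theorem meas_dens : Measurable fun x : ℝ => ENNReal.ofReal (x ^ (-2 : ℝ)) :=
  ENNReal.measurable_ofReal.comp (measurable_id.pow_const _)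

theorem eta_univ : eta univ = 1 := by
  unfold eta
  rw [withDensity_apply _ MeasurableSet.univ, Measure.restrict_univ,
    ← ofReal_integral_eq_lintegral_ofReal
      (integrableOn_Ioi_rpow_of_lt (by norm_num) (by norm_num))]
  · rw [integral_Ioi_rpow_of_lt (by norm_num) (by norm_num)]
    norm_num
  · refine (ae_restrict_iff' measurableSet_Ioi).2 (Eventually.of_forall fun x hx => ?_)
    have : (1 : ℝ) < x := hx
    show (0 : ℝ) ≤ x ^ (-2 : ℝ)
    positivity

instance : IsProbabilityMeasure eta := ⟨eta_univ⟩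

theorem eta_null {C : Set ℝ} (hC : C.Countable) : eta C = 0 := by
  have h1 : eta ≪ volume.restrict (Ioi 1) := withDensity_absolutelyContinuous _ _
  have h2 : volume.restrict (Ioi (1 : ℝ)) ≪ volume := Measure.absolutelyContinuous_of_le
    Measure.restrict_le_self
  exact h1 (h2 (hC.measure_zero _))

theorem eta_log : ∫⁻ x, ENNReal.ofReal x ∂eta = ∞ := by
  unfold eta
  rw [lintegral_withDensity_eq_lintegral_mul _ meas_dens ENNReal.measurable_ofReal]
  by_contra hcon
  apply not_integrableOn_Ioi_inv (a := (1 : ℝ))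
  have h1 : ∀ᵐ x : ℝ ∂(volume.restrict (Ioi 1)), 0 ≤ x⁻¹ := by
    refine (ae_restrict_iff' measurableSet_Ioi).2 (Eventually.of_forall fun x hx => ?_)
    have : (1 : ℝ) < x := hx
    positivity
  have h2 : ∫⁻ x in Ioi (1 : ℝ), ENNReal.ofReal x⁻¹ =
      ∫⁻ x in Ioi (1 : ℝ), ((fun x : ℝ => ENNReal.ofReal (x ^ (-2 : ℝ))) * ENNReal.ofReal) x := by
    refine lintegral_congr_ae ((ae_restrict_iff' measurableSet_Ioi).2
      (Eventually.of_forall fun x hx => ?_))
    have h3 : (1 : ℝ) < x := hx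
    have h4 : (0 : ℝ) ≤ x ^ (-2 : ℝ) := by positivity
    show ENNReal.ofReal x⁻¹ = ENNReal.ofReal (x ^ (-2 : ℝ)) * ENNReal.ofReal x
    rw [← ENNReal.ofReal_mul h4]
    congr 1
    rw [Real.rpow_neg (by linarith), Real.rpow_two]
    field_simp
  refine ⟨(measurable_inv).aestronglyMeasurable, ?_⟩
  rw [hasFiniteIntegral_iff_ofReal h1, h2]
  exact lt_top_iff_ne_top.2 hcon

/-! ### the two embeddings -/

/-- collision angle at the inner circle -/
noncomputable def ph (x : ℝ) : ℝ := Real.arctan (Real.exp x)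

theorem ph_lt (x : ℝ) : |ph x| < Real.pi / 2 := by
  unfold ph
  rw [abs_lt]
  exact ⟨Real.neg_pi_div_two_lt_arctan _, Real.arctan_lt_pi_div_two _⟩

theorem ph_inj : Function.Injective ph :=
  Real.arctan_strictMono.injective.comp Real.exp_injective

theorem cont_ph : Continuous ph := Real.continuous_arctan.comp Real.continuous_exp

theorem cos_ph_pos (x : ℝ) : 0 < Real.cos (ph x) := Real.cos_arctan_pos _

theorem le_log (x : ℝ) : x ≤ Real.log (1 / Real.cos (ph x)) := by
  rw [Real.le_log_iff_exp_le (one_div_pos.2 (cos_ph_pos x))]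
  unfold ph
  rw [Real.cos_arctan, one_div_one_div]
  apply Real.le_sqrt_of_sq_le
  linarith

/-- the point of the unit circle -/
noncomputable def zc (θ : UnitAddCircle) : ℂ := (AddCircle.toCircle θ : ℂ)

theorem norm_zc (θ : UnitAddCircle) : ‖zc θ‖ = 1 := Circle.norm_coe _

theorem cont_zc : Continuous zc :=
  continuous_subtype_val.comp AddCircle.continuous_toCircle

theorem zc_inj : Function.Injective zc :=
  Circle.coe_injective.comp (AddCircle.injective_toCircle one_ne_zero)

theorem zc_add (θ : UnitAddCircle) (a : ℝ) :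
    zc (θ + ((a / (2 * Real.pi) : ℝ) : UnitAddCircle)) = zc θ * ex a := by
  unfold zc
  rw [AddCircle.toCircle_add, Circle.coe_mul, AddCircle.toCircle_apply_mk]
  congr 1
  rw [Circle.coe_exp]
  unfold ex
  congr 3
  have := Real.pi_ne_zero
  field_simp

/-- inner states -/
noncomputable def Ei (p : ℝ × UnitAddCircle) : ℂ × ℂ := Gi (ph p.1) (zc p.2)

/-- outer states -/
noncomputable def Eo (p : ℝ × UnitAddCircle) : ℂ × ℂ := Go (ph p.1) (zc p.2)

theorem cont_ex : Continuous ex := by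
  unfold ex
  fun_prop

theorem cont_po : Continuous po := by
  unfold po
  exact Real.continuous_arcsin.comp (Real.continuous_sin.div_const 2)

theorem cont_Ei : Continuous Ei := by
  unfold Ei Gi
  have h1 : Continuous fun p : ℝ × UnitAddCircle => zc p.2 := cont_zc.comp continuous_snd
  have h2 : Continuous fun p : ℝ × UnitAddCircle => ex (ph p.1) :=
    cont_ex.comp (cont_ph.comp continuous_fst)
  exact h1.prodMk (h1.mul h2)

theorem cont_Eo : Continuous Eo := by
  unfold Eo Go
  have h1 : Continuous fun p : ℝ × UnitAddCircle => zc p.2 := cont_zc.comp continuous_snd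
  have h2 : Continuous fun p : ℝ × UnitAddCircle => ex (-(po (ph p.1))) :=
    cont_ex.comp (cont_po.comp (cont_ph.comp continuous_fst)).neg
  exact (continuous_const.mul h1).prodMk (h1.mul h2).neg

theorem zc_ne (θ : UnitAddCircle) : zc θ ≠ 0 := by
  rw [← norm_ne_zero_iff, norm_zc]
  exact one_ne_zero

theorem inj_Ei : Function.Injective Ei := by
  rintro ⟨x, θ⟩ ⟨y, θ'⟩ h
  have h1 : zc θ = zc θ' := congrArg Prod.fst h
  have h2 : zc θ * ex (ph x) = zc θ' * ex (ph y) := congrArg Prod.snd h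
  rw [← h1] at h2
  have h3 := mul_left_cancel₀ (zc_ne θ) h2
  have h4 := exp_inj (ph_lt x) (ph_lt y) h3
  exact Prod.ext (ph_inj h4) (zc_inj h1)

theorem po_inj {a b : ℝ} (ha : |a| < Real.pi / 2) (hb : |b| < Real.pi / 2) (h : po a = po b) :
    a = b := by
  have h1 : Real.sin a = Real.sin b := by
    have := congrArg Real.sin h
    rw [sin_po, sin_po] at this
    linarith
  have h2 := abs_lt.1 ha
  have h3 := abs_lt.1 hb
  exact Real.strictMonoOn_sin.injOn ⟨by linarith, by linarith⟩ ⟨by linarith, by linarith⟩ h1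

theorem inj_Eo : Function.Injective Eo := by
  rintro ⟨x, θ⟩ ⟨y, θ'⟩ h
  have h1 : 2 * zc θ = 2 * zc θ' := congrArg Prod.fst h
  have h1' := mul_left_cancel₀ two_ne_zero h1
  have h2 : -(zc θ * ex (-(po (ph x)))) = -(zc θ' * ex (-(po (ph y)))) := congrArg Prod.snd h
  rw [← h1'] at h2
  have h3 := mul_left_cancel₀ (zc_ne θ) (neg_injective h2)
  have h4 := exp_inj (by rw [abs_neg]; exact po_lt _) (by rw [abs_neg]; exact po_lt _) h3
  have h5 := po_inj (ph_lt x) (ph_lt y) (neg_injective h4)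
  exact Prod.ext (ph_inj h5) (zc_inj h1')

theorem emb_Ei : MeasurableEmbedding Ei := cont_Ei.measurableEmbedding inj_Ei

theorem emb_Eo : MeasurableEmbedding Eo := cont_Eo.measurableEmbedding inj_Eo

/-- the rotation -/
noncomputable def rot (p : ℝ × UnitAddCircle) : ℝ × UnitAddCircle :=
  (p.1, p.2 + ((dl (ph p.1) / (2 * Real.pi) : ℝ) : UnitAddCircle))

theorem cont_dl : Continuous dl := continuous_id.sub cont_po

/-- the measure on the parameter space -/
noncomputable def mm : Measure (ℝ × UnitAddCircle) := eta.prod volume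

instance : IsProbabilityMeasure (volume : Measure UnitAddCircle) := ⟨UnitAddCircle.measure_univ⟩

instance : IsProbabilityMeasure mm := by unfold mm; infer_instance

theorem rot_mp : MeasurePreserving rot mm mm := by
  unfold mm
  refine (MeasurePreserving.id eta).skew_product
    (g := fun x θ => θ + ((dl (ph x) / (2 * Real.pi) : ℝ) : UnitAddCircle)) ?_ ?_
  · have h1 : Continuous fun p : ℝ × UnitAddCircle =>
        p.2 + ((dl (ph p.1) / (2 * Real.pi) : ℝ) : UnitAddCircle) := by
      refine continuous_snd.add ?_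
      exact (AddCircle.continuous_mk' 1).comp
        (((cont_dl.comp cont_ph).comp continuous_fst).div_const _)
    exact h1.measurable
  · exact Eventually.of_forall fun x => (measurePreserving_add_right volume _).map_eq

theorem bill_Ei (p : ℝ × UnitAddCircle) : billiard Q ga (Ei p) = Eo (rot p) := by
  unfold Ei Eo rot
  rw [bill_i (ph_lt _) (norm_zc _), zc_add]

theorem bill_Eo (p : ℝ × UnitAddCircle) : billiard Q ga (Eo p) = Ei (rot p) := by
  unfold Ei Eo rot
  rw [bill_o (ph_lt _) (norm_zc _), zc_add]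

/-- the invariant measure -/
noncomputable def mu : Measure (ℂ × ℂ) :=
  (2⁻¹ : ℝ≥0∞) • (mm.map Ei + mm.map Eo)

theorem ae_mu {P : ℂ × ℂ → Prop} (h : ∀ᵐ p ∂mm, P (Ei p) ∧ P (Eo p)) : ∀ᵐ x ∂mu, P x := by
  unfold mu
  refine Measure.ae_smul_measure ?_ _
  rw [ae_add_measure_iff]
  exact ⟨emb_Ei.ae_map_iff.2 (h.mono fun p hp => hp.1),
    emb_Eo.ae_map_iff.2 (h.mono fun p hp => hp.2)⟩

instance : IsProbabilityMeasure mu := by
  constructor
  unfold mu
  have h1 : (mm.map Ei) univ = 1 := by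
    rw [Measure.map_apply emb_Ei.measurable MeasurableSet.univ, preimage_univ, measure_univ]
  have h2 : (mm.map Eo) univ = 1 := by
    rw [Measure.map_apply emb_Eo.measurable MeasurableSet.univ, preimage_univ, measure_univ]
  rw [Measure.smul_apply, Measure.add_apply, h1, h2, smul_eq_mul, one_add_one_eq_two]
  exact ENNReal.inv_mul_cancel (by norm_num) (by norm_num)

theorem comp_Ei : billiard Q ga ∘ Ei = Eo ∘ rot := funext bill_Ei

theorem comp_Eo : billiard Q ga ∘ Eo = Ei ∘ rot := funext bill_Eo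

theorem aem_i : AEMeasurable (billiard Q ga) (mm.map Ei) := by
  rw [emb_Ei.aemeasurable_map_iff, comp_Ei]
  exact (emb_Eo.measurable.comp rot_mp.measurable).aemeasurable

theorem aem_o : AEMeasurable (billiard Q ga) (mm.map Eo) := by
  rw [emb_Eo.aemeasurable_map_iff, comp_Eo]
  exact (emb_Ei.measurable.comp rot_mp.measurable).aemeasurable

theorem map_i : (mm.map Ei).map (billiard Q ga) = mm.map Eo := by
  rw [AEMeasurable.map_map_of_aemeasurable aem_i emb_Ei.measurable.aemeasurable, comp_Ei,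
    ← Measure.map_map emb_Eo.measurable rot_mp.measurable, rot_mp.map_eq]

theorem map_o : (mm.map Eo).map (billiard Q ga) = mm.map Ei := by
  rw [AEMeasurable.map_map_of_aemeasurable aem_o emb_Eo.measurable.aemeasurable, comp_Eo,
    ← Measure.map_map emb_Ei.measurable rot_mp.measurable, rot_mp.map_eq]

theorem aem_mu : AEMeasurable (billiard Q ga) mu := by
  unfold mu
  exact (aem_i.add_measure aem_o).smul_measure _

theorem map_mu : mu.map (billiard Q ga) = mu := by
  have h1 : (mm.map Ei + mm.map Eo).map (billiard Q ga) = mm.map Ei + mm.map Eo := by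
    rw [AEMeasurable.map_add₀ aem_i aem_o, map_i, map_o, add_comm]
  unfold mu
  rw [Measure.map_smul, h1]

/-! ### Non-integrability -/

theorem int_mu : ∫⁻ x, ENNReal.ofReal (Real.posLog (derivNorm Q ga x)) ∂mu = ∞ := by
  unfold mu
  rw [lintegral_smul_measure, lintegral_add_measure, emb_Eo.lintegral_map]
  have h1 : ∫⁻ p, ENNReal.ofReal (Real.posLog (derivNorm Q ga (Eo p))) ∂mm = ∞ := by
    have h2 : ∫⁻ p : ℝ × UnitAddCircle, ENNReal.ofReal p.1 ∂mm ≤
        ∫⁻ p, ENNReal.ofReal (Real.posLog (derivNorm Q ga (Eo p))) ∂mm := by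
      refine lintegral_mono fun p => ENNReal.ofReal_le_ofReal ?_
      refine (le_log p.1).trans (le_trans ?_ (le_max_right 0 _))
      exact Real.log_le_log (one_div_pos.2 (cos_ph_pos p.1))
        (derivNorm_o (ph_lt p.1) (norm_zc p.2))
    have h3 : ∫⁻ p : ℝ × UnitAddCircle, ENNReal.ofReal p.1 ∂mm = ∞ := by
      unfold mm
      have h4 : Measurable fun p : ℝ × UnitAddCircle => ENNReal.ofReal p.1 :=
        ENNReal.measurable_ofReal.comp measurable_fst
      rw [lintegral_prod _ h4.aemeasurable]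
      simp only [lintegral_const, measure_univ, mul_one]
      exact eta_log
    rw [h3, top_le_iff] at h2
    exact h2
  rw [h1, add_top, smul_eq_mul]
  exact ENNReal.mul_top (by norm_num)

/-! ### Periodic points -/

theorem iter_i {φ : ℝ} (h : |φ| < Real.pi / 2) {z : ℂ} (hz : ‖z‖ = 1) (n : ℕ) :
    (billiard Q ga)^[n] (Gi φ z) = orb φ z n := by
  induction n with
  | zero =>
    unfold orb
    simp [ex_zero]
  | succ n ih =>
    rw [Function.iterate_succ_apply', ih]
    have := isTable.billiard_eq (orb_next h hz n).2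
    rw [this]
    norm_cast

theorem iter_o {φ : ℝ} (h : |φ| < Real.pi / 2) {z : ℂ} (hz : ‖z‖ = 1) (n : ℕ) :
    (billiard Q ga)^[n] (Go φ z) = orb φ (z * ex (-(dl φ))) (n + 1) := by
  induction n with
  | zero =>
    unfold orb
    have h1 : z * ex (-(dl φ)) * ex (((((0 : ℕ) : ℤ) + 1 : ℤ) : ℝ) * dl φ) = z := by
      rw [mul_assoc, ← ex_add]
      have : -(dl φ) + ((((0 : ℕ) : ℤ) + 1 : ℤ) : ℝ) * dl φ = 0 := by push_cast; ring
      rw [this, ex_zero, mul_one]
    rw [h1, if_neg (by decide)]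
    rfl
  | succ n ih =>
    rw [Function.iterate_succ_apply', ih]
    have hz' : ‖z * ex (-(dl φ))‖ = 1 := by rw [norm_mul, hz, norm_ex, mul_one]
    have := isTable.billiard_eq (orb_next h hz' (n + 1)).2
    rw [this]
    norm_cast

theorem hasDerivAt_dl (ψ : ℝ) :
    HasDerivAt dl (1 - 1 / √(1 - (Real.sin ψ / 2) ^ 2) * (Real.cos ψ / 2)) ψ := by
  have h1 : Real.sin ψ / 2 ≠ -1 := by
    have := Real.neg_one_le_sin ψ
    linarith
  have h2 : Real.sin ψ / 2 ≠ 1 := by
    have := Real.sin_le_one ψ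
    linarith
  have h3 := Real.hasDerivAt_arcsin h1 h2
  have h4 : HasDerivAt (fun ψ : ℝ => Real.sin ψ / 2) (Real.cos ψ / 2) ψ :=
    (Real.hasDerivAt_sin ψ).div_const 2
  exact (hasDerivAt_id ψ).sub
    (HasDerivAt.comp (h₂ := Real.arcsin) (h := fun ψ : ℝ => Real.sin ψ / 2) ψ h3 h4)

theorem dl_strictMono : StrictMono dl := by
  apply strictMono_of_deriv_pos
  intro ψ
  rw [(hasDerivAt_dl ψ).deriv]
  have h1 := Real.sin_sq_add_cos_sq ψ
  have h2 : Real.cos ψ / 2 < √(1 - (Real.sin ψ / 2) ^ 2) := by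
    apply Real.lt_sqrt_of_sq_lt
    nlinarith
  have h3 : 0 < √(1 - (Real.sin ψ / 2) ^ 2) := by
    apply Real.sqrt_pos.2
    nlinarith [sq_nonneg (Real.cos ψ)]
  have h4 : 1 / √(1 - (Real.sin ψ / 2) ^ 2) * (Real.cos ψ / 2) < 1 := by
    rw [one_div, inv_mul_lt_iff₀ h3, mul_one]
    exact h2
  linarith

/-- the parameters with periodic orbits -/
def CC : Set ℝ := {x | ∃ n k : ℤ, 0 < n ∧ (n : ℝ) * dl (ph x) = k * (2 * Real.pi)}

theorem CC_countable : CC.Countable := by
  have h1 : CC ⊆ ⋃ n : ℤ, ⋃ k : ℤ, {x | 0 < n ∧ (n : ℝ) * dl (ph x) = k * (2 * Real.pi)} := by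
    rintro x ⟨n, k, h⟩
    exact mem_iUnion.2 ⟨n, mem_iUnion.2 ⟨k, h⟩⟩
  refine Countable.mono h1 (countable_iUnion fun n => countable_iUnion fun k => ?_)
  refine Set.Subsingleton.countable ?_
  rintro x ⟨hn, hx⟩ y ⟨_, hy⟩
  have hn' : (n : ℝ) ≠ 0 := by
    have : (0 : ℝ) < n := by exact_mod_cast hn
    exact this.ne'
  have h2 : dl (ph x) = dl (ph y) := mul_left_cancel₀ hn' (hx.trans hy.symm)
  exact ph_inj (dl_strictMono.injective h2)

theorem ex_one {a : ℝ} (h : ex a = 1) : ∃ k : ℤ, a = k * (2 * Real.pi) := by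
  have h1 : Complex.exp (a * Complex.I) = Complex.exp ((0 : ℝ) * Complex.I) := by
    have : ex a = ex 0 := by rw [h, ex_zero]
    exact this
  obtain ⟨k, hk⟩ := exp_eq_exp_iff h1
  exact ⟨k, by rw [hk]; ring⟩

theorem per_i {x : ℝ} {θ : UnitAddCircle} {n : ℕ} (hn : 0 < n)
    (h : (billiard Q ga)^[n] (Ei (x, θ)) = Ei (x, θ)) : x ∈ CC := by
  unfold Ei at h
  rw [iter_i (ph_lt _) (norm_zc _)] at h
  unfold orb at h
  split_ifs at h with hp
  · have h1 : zc θ * ex (((n : ℤ) : ℝ) * dl (ph x)) = zc θ := congrArg Prod.fst h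
    have h2 : ex (((n : ℤ) : ℝ) * dl (ph x)) = 1 := by
      apply mul_left_cancel₀ (zc_ne θ)
      rw [h1, mul_one]
    obtain ⟨k, hk⟩ := ex_one h2
    exact ⟨n, k, by exact_mod_cast hn, hk⟩
  · exfalso
    have h1 : 2 * (zc θ * ex (((n : ℤ) : ℝ) * dl (ph x))) = zc θ := congrArg Prod.fst h
    have h2 := congrArg norm h1
    rw [norm_mul, norm_mul, norm_zc, norm_ex] at h2
    norm_num at h2

theorem per_o {x : ℝ} {θ : UnitAddCircle} {n : ℕ} (hn : 0 < n)
    (h : (billiard Q ga)^[n] (Eo (x, θ)) = Eo (x, θ)) : x ∈ CC := by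
  unfold Eo at h
  rw [iter_o (ph_lt _) (norm_zc _)] at h
  unfold orb at h
  have h0 : zc θ * ex (-(dl (ph x))) * ex ((((n : ℤ) + 1 : ℤ) : ℝ) * dl (ph x)) =
      zc θ * ex (((n : ℤ) : ℝ) * dl (ph x)) := by
    rw [mul_assoc, ← ex_add]
    congr 2
    push_cast
    ring
  dsimp only at h
  rw [h0] at h
  split_ifs at h with hp
  · exfalso
    have h1 : zc θ * ex (((n : ℤ) : ℝ) * dl (ph x)) = 2 * zc θ := congrArg Prod.fst h
    have h2 := congrArg norm h1
    rw [norm_mul, norm_mul, norm_zc, norm_ex] at h2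
    norm_num at h2
  · have h1 : 2 * (zc θ * ex (((n : ℤ) : ℝ) * dl (ph x))) = 2 * zc θ := congrArg Prod.fst h
    have h1' := mul_left_cancel₀ two_ne_zero h1
    have h2 : ex (((n : ℤ) : ℝ) * dl (ph x)) = 1 := by
      apply mul_left_cancel₀ (zc_ne θ)
      rw [h1', mul_one]
    obtain ⟨k, hk⟩ := ex_one h2
    exact ⟨n, k, by exact_mod_cast hn, hk⟩

theorem ae_CC : ∀ᵐ p ∂mm, p.1 ∉ CC := by
  have h1 : mm (CC ×ˢ univ) = 0 := by
    unfold mm
    rw [Measure.prod_prod, eta_null CC_countable, zero_mul]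
  have h2 : {p : ℝ × UnitAddCircle | ¬ p.1 ∉ CC} ⊆ CC ×ˢ univ := by
    intro p hp
    exact ⟨not_not.1 hp, mem_univ _⟩
  exact measure_mono_null h2 h1

theorem nonper_mu : mu {x | ∃ n : ℕ, 0 < n ∧ (billiard Q ga)^[n] x = x} = 0 := by
  have h : ∀ᵐ x ∂mu, ¬ ∃ n : ℕ, 0 < n ∧ (billiard Q ga)^[n] x = x := by
    apply ae_mu
    filter_upwards [ae_CC] with p hp
    constructor
    · rintro ⟨n, hn, h⟩
      exact hp (per_i hn h)
    · rintro ⟨n, hn, h⟩
      exact hp (per_o hn h)
  simpa [ae_iff] using h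

theorem regular_mu : mu (regularStates Q ga)ᶜ = 0 := by
  have h : ∀ᵐ x ∂mu, x ∈ regularStates Q ga := by
    apply ae_mu
    refine Eventually.of_forall fun p => ?_
    exact ⟨Gi_regular (ph_lt _) (norm_zc _), Go_regular (ph_lt _) (norm_zc _)⟩
  exact h

theorem deriv_mu : ∀ᵐ x ∂mu, ∃! A, IsCoordDeriv Q ga x A := by
  apply ae_mu
  refine Eventually.of_forall fun p => ?_
  exact ⟨existsUnique_i (ph_lt _) (norm_zc _), existsUnique_o (ph_lt _) (norm_zc _)⟩

end Pool.Agent.TH311.Os
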